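import Mathlib
import Pool.Agent.TH932.S2.G.Gc

set_option autoImplicit false

/-!
# Divergent generalized Collatz trajectories meet many residue classes modulo the powers of `d`
-/

namespace Pool.Agent.Results.MP_b75863_nt.SuperlinearClasses

open Filter Topology Pool.Agent.TH932.S2.G

/-- The generalized Collatz mapping `T(x) = (m_i x - r_i) / d` for `x ≡ i (mod d)`. -/
def T (d : ℕ) (m r : ℤ → ℤ) (x : ℤ) : ℤ := (m (x % d) * x - r (x % d)) / d

/-- the number of different blocks of `n` consecutive residues modulo `d` in the trajectory -/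
noncomputable def blocks (d : ℕ) (m r : ℤ → ℤ) (x : ℤ) (n : ℕ) : ℕ :=
  (Set.range fun i : ℕ => fun j : Fin n => (((T d m r)^[i + j] x : ℤ) : ZMod d)).ncard

/-- the number of residue classes modulo `d ^ n` which contain a term of the trajectory -/
noncomputable def classes (d : ℕ) (m r : ℤ → ℤ) (x : ℤ) (n : ℕ) : ℕ :=
  (Set.range fun i : ℕ => (((T d m r)^[i] x : ℤ) : ZMod (d ^ n))).ncard

/-- the number of residue classes modulo `d ^ n` which contain one of the first `h` terms -/
noncomputable def classesUpTo (d : ℕ) (m r : ℤ → ℤ) (x : ℤ) (h n : ℕ) : ℕ :=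
  ((fun i : ℕ => (((T d m r)^[i] x : ℤ) : ZMod (d ^ n))) '' {i | i < h}).ncard

/-- **Result.** Let `T` be of relatively prime type with multipliers which are powers (with
exponents `≥ 0`) of one integer `q ≥ 2` coprime to `d`.

(1) If the trajectory of `x` is divergent, then the number of residue classes modulo `d ^ n` which
contain a term of the trajectory, divided by `n`, tends to infinity; the same holds for the number
of different blocks of `n` consecutive residues modulo `d`.

(2) For every `A` there is `K` such that, for all `N ≥ K` and `|x| ≤ 2 ^ N`: if the first `N ^ K`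
terms of the trajectory lie in at most `A N` residue classes modulo `d ^ N`, then the trajectory
reaches, after at most `N ^ K` steps, a cycle of length at most `N ^ K`, and all its terms have
absolute value at most `2 ^ (K N)`. -/
theorem result (d q : ℕ) (hd : 2 ≤ d) (hq : 2 ≤ q) (hco : Nat.Coprime q d) (m r : ℤ → ℤ)
    (hm : ∀ i : ℤ, 0 ≤ i → i < d → ∃ s : ℕ, m i = (q : ℤ) ^ s)
    (hr : ∀ i : ℤ, 0 ≤ i → i < d → (d : ℤ) ∣ m i * i - r i) :
    (∀ x : ℤ, (∀ R : ℤ, ∃ k, R < |(T d m r)^[k] x|) →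
      Tendsto (fun n : ℕ => (classes d m r x n : ℝ) / n) atTop atTop ∧
      Tendsto (fun n : ℕ => (blocks d m r x n : ℝ) / n) atTop atTop) ∧
    (∀ A : ℝ, ∃ K : ℕ, ∀ (x : ℤ) (N : ℕ), K ≤ N → |x| ≤ 2 ^ N →
      (classesUpTo d m r x (N ^ K) N : ℝ) ≤ A * N →
      (∃ i ≤ N ^ K, ∃ k, 1 ≤ k ∧ k ≤ N ^ K ∧ (T d m r)^[k] ((T d m r)^[i] x) = (T d m r)^[i] x) ∧
        ∀ j, |(T d m r)^[j] x| ≤ 2 ^ (K * N)) := by
  classical
  obtain ⟨s, hs⟩ : ∃ s : ℤ → ℕ, ∀ i : ℤ, 0 ≤ i → i < d → m i = (q : ℤ) ^ s i := by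
    refine ⟨fun i => if h : ∃ s : ℕ, m i = (q : ℤ) ^ s then h.choose else 0, fun i h0 h1 => ?_⟩
    have h := hm i h0 h1
    simp only
    rw [dif_pos h]
    exact h.choose_spec
  obtain ⟨δ, β, hG⟩ : ∃ (δ : ZMod d → ℕ) (β : ZMod d → ℤ), ∀ x : ℤ,
      (d : ℤ) * T d m r x = (q : ℤ) ^ δ (x : ZMod d) * x + β (x : ZMod d) :=
    ⟨fun a => s (a.val : ℤ), fun a => -r (a.val : ℤ), fun x => Gc.rec_of hd s hs hr x⟩
  constructor
  · intro x hx
    have h1 := Gc.unb hd hq hco hG hx
    refine ⟨tendsto_atTop_mono (fun n => ?_) h1, h1⟩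
    have h2 := Gc.blkAll_le_clsAll hd hG x n
    have h3 : (Gc.blkAll d (T d m r) x n : ℝ) ≤ classes d m r x n := by exact_mod_cast h2
    change (Gc.blkAll d (T d m r) x n : ℝ) / n ≤ _
    gcongr
  · intro A
    obtain ⟨K, h⟩ := Gc.one hd hq hco hG A
    refine ⟨K + 1, fun x N hN hx hcx => ?_⟩
    have hpow : N ^ K ≤ N ^ (K + 1) := Nat.pow_le_pow_right (by omega) (by omega)
    obtain ⟨⟨i, hi, k, hk1, hk2, hk⟩, hb⟩ := h x N (by omega) hx (by
      refine le_trans ?_ hcx
      have h1 := Gc.blk_le_cls hd hG x (N ^ K) (n := N) (by omega)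
      have h2 : Gc.cls d (T d m r) x (N ^ K) N ≤ classesUpTo d m r x (N ^ (K + 1)) N := by
        have : NeZero (d ^ N) := ⟨by
          have : 0 < d ^ N := Nat.pow_pos (by omega)
          omega⟩
        exact Set.ncard_le_ncard (Set.image_mono fun i hi => lt_of_lt_of_le hi hpow)
          (Set.toFinite _)
      exact_mod_cast h1.trans h2)
    refine ⟨⟨i, by omega, k, hk1, by omega, hk⟩, fun j => (hb j).trans ?_⟩
    exact pow_le_pow_right₀ (by norm_num) (Nat.mul_le_mul_right _ (by omega))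

end Pool.Agent.Results.MP_b75863_nt.SuperlinearClasses
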